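import Pool.Agent.helper94.AP.SpecM

set_option autoImplicit false

namespace Pool.Agent.AP

open Finset NumberField Pool.Agent.helper3.FT Pool.Agent.helper47.RA Pool.Agent.T5

theorem ASC_big (α B : ℝ) (hα : 0 < α) : ∃ N₀ : ℝ, ∀ N : ℝ, N₀ ≤ N → B ≤ N ^ α := by
  obtain ⟨N₀, h⟩ := Filter.eventually_atTop.1 ((tendsto_rpow_atTop hα).eventually_ge_atTop B)
  exact ⟨N₀, h⟩

theorem ASC_kap (hKAP : KAP_stmt) (w y : ℕ) (n : ℤ) : 0 ≤ kap w y n := by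
  rcases Nat.eq_zero_or_pos y with h | h
  · subst h
    unfold kap
    simp
  · exact (hKAP.1 w y n h).1

theorem ASC_LL (w : ℕ) : (0 : ℝ) < LL w := by
  have h : 0 < LL w := by
    unfold LL
    refine Nat.mul_pos (by norm_num) (Finset.prod_pos fun q hq => ?_)
    have hq' := Finset.mem_of_mem_erase hq
    unfold pr at hq'
    have hp : q.Prime := by
      simp only [Finset.mem_filter] at hq'
      exact hq'.2
    exact pow_pos hp.pos 2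
  exact_mod_cast h

theorem ASC_PP (w : ℕ) : 0 < PP w := by
  unfold PP
  refine Finset.prod_pos fun q hq => ?_
  unfold pr at hq
  have hp : q.Prime := by
    simp only [Finset.mem_filter] at hq
    exact hq.2
  exact hp.pos

theorem ASC_prod (w : ℕ) : ∏ q ∈ pr w, (1 - 1 / (q : ℝ) ^ 2) ^ 2 ≤ 1 := by
  refine Finset.prod_le_one (fun q _ => sq_nonneg _) fun q hq => ?_
  unfold pr at hq
  have hp : q.Prime := by
    simp only [Finset.mem_filter] at hq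
    exact hq.2
  have h1 : (1 : ℝ) ≤ (q : ℝ) := by exact_mod_cast hp.one_lt.le
  have h2 : 0 < 1 / (q : ℝ) ^ 2 := by positivity
  have h3 : 1 / (q : ℝ) ^ 2 ≤ 1 := by
    rw [div_le_one (by positivity)]
    exact one_le_pow₀ h1
  have h4 : 0 ≤ 1 - 1 / (q : ℝ) ^ 2 := by linarith
  exact pow_le_one₀ h4 (by linarith)

theorem ASC_gam (w : ℕ) (g : ℕ → ℕ → ℕ → ℝ) (hg : ∀ r a b, 0 ≤ g r a b) (r : ℕ) : 0 ≤ gam w g r := by
  unfold gam
  exact div_nonneg (Finset.sum_nonneg fun _ _ => Finset.sum_nonneg fun _ _ => hg _ _ _) (sq_nonneg _)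

/-- the sum over `z` and `y` for one `r` -/
noncomputable def ASC_S (p w r : ℕ) (N Y : ℝ) : ℝ :=
  ∑ z ∈ Ioc ⌊Y / r / 2⌋₊ ⌊Y / r⌋₊, ∑ y ∈ Ioc 0 ⌊2 * VV p N r (Y / r)⌋₊,
      (if Nat.Coprime y (r * z) then NC w p r z y * ell (4 * (r : ℝ) * (z : ℝ) ^ p) N y / ((y : ℝ) ^ 2 * LL w) else 0)

theorem ASC_term (hMG : MG_stmt) (p w : ℕ) (g : ℕ → ℕ → ℕ → ℝ) (hG : IsG p w g) (r : ℕ) (hr : r ∣ PP w) (hr1 : 1 ≤ r)
    (N Z : ℝ) (hN : 0 < N) (hZ : 0 < Z) (z y : ℕ) (hz : 1 ≤ z) (hy : 1 ≤ y) :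
    (if Nat.Coprime y (r * z) then NC w p r z y * ell (4 * (r : ℝ) * (z : ℝ) ^ p) N y / ((y : ℝ) ^ 2 * LL w) else 0) =
      2 * √N / VV p N r Z * (cw w g r z y * Ph p ((z : ℝ) / Z) ((y : ℝ) / VV p N r Z)) := by
  unfold cw
  split_ifs with h
  · have h1 := hMG p r z y N Z hr1 hz hy hN hZ
    have h2 := hG.nc r z y hr hz hy h
    have hL := ASC_LL w
    have hyy : (0 : ℝ) < (y : ℝ) ^ 2 := by
      have : (0 : ℝ) < (y : ℝ) := by exact_mod_cast hy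
      positivity
    have h3 : (NC w p r z y : ℝ) * ell (4 * (r : ℝ) * (z : ℝ) ^ p) N y / ((y : ℝ) ^ 2 * LL w) =
        (g r (z % LL w) (y % LL w) * (kap w y ((r * z : ℕ) : ℤ) : ℝ)) * (ell (4 * (r : ℝ) * (z : ℝ) ^ p) N y / (y : ℝ) ^ 2) := by
      rw [h2]
      field_simp
    rw [h3, h1]
    ring
  · ring

theorem ASC_r (hMG : MG_stmt) (p w : ℕ) (g : ℕ → ℕ → ℕ → ℝ) (hG : IsG p w g) (r : ℕ) (hr : r ∣ PP w) (hr1 : 1 ≤ r)
    (N Y E : ℝ) (hN : 0 < N) (hY : 0 < Y)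
    (hRS : |∑ z ∈ Ioc ⌊(Y / r) / 2⌋₊ ⌊Y / r⌋₊, ∑ y ∈ Ioc 0 ⌊2 * VV p N r (Y / r)⌋₊,
      cw w g r z y * Ph p ((z : ℝ) / (Y / r)) ((y : ℝ) / VV p N r (Y / r)) -
      gam w g r * (Cst / 2) * ((Y / r) * VV p N r (Y / r))| ≤ E * ((Y / r) * VV p N r (Y / r)))
    (hV : 0 < VV p N r (Y / r)) :
    |ASC_S p w r N Y - Cst * (1 / (r : ℝ) * gam w g r) * (Y * √N)| ≤ 2 * E * (1 / (r : ℝ)) * (Y * √N) := by
  have hrR : (0 : ℝ) < r := by exact_mod_cast hr1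
  have hZ : 0 < Y / r := div_pos hY hrR
  set V := VV p N r (Y / r) with hVdef
  have hS : ASC_S p w r N Y = 2 * √N / V * ∑ z ∈ Ioc ⌊(Y / r) / 2⌋₊ ⌊Y / r⌋₊, ∑ y ∈ Ioc 0 ⌊2 * V⌋₊,
      cw w g r z y * Ph p ((z : ℝ) / (Y / r)) ((y : ℝ) / V) := by
    unfold ASC_S
    rw [Finset.mul_sum]
    refine Finset.sum_congr rfl fun z hz => ?_
    rw [Finset.mul_sum]
    refine Finset.sum_congr rfl fun y hy => ?_
    have hz1 : 1 ≤ z := by
      have := (Finset.mem_Ioc.1 hz).1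
      omega
    have hy1 : 1 ≤ y := by
      have := (Finset.mem_Ioc.1 hy).1
      omega
    exact ASC_term hMG p w g hG r hr hr1 N (Y / r) hN hZ z y hz1 hy1
  have hs0 : 0 ≤ 2 * √N / V := by positivity
  have e1 : ASC_S p w r N Y - Cst * (1 / (r : ℝ) * gam w g r) * (Y * √N) =
      2 * √N / V * (∑ z ∈ Ioc ⌊(Y / r) / 2⌋₊ ⌊Y / r⌋₊, ∑ y ∈ Ioc 0 ⌊2 * V⌋₊,
      cw w g r z y * Ph p ((z : ℝ) / (Y / r)) ((y : ℝ) / V) - gam w g r * (Cst / 2) * ((Y / r) * V)) := by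
    rw [hS, mul_sub]
    congr 1
    field_simp
  rw [e1, abs_mul, abs_of_nonneg hs0]
  calc 2 * √N / V * |_| ≤ 2 * √N / V * (E * ((Y / r) * V)) := mul_le_mul_of_nonneg_left hRS hs0
    _ = 2 * E * (1 / (r : ℝ)) * (Y * √N) := by
        field_simp

/-- the ranges of the parameters -/
theorem ASC_range (p : ℕ) (hp : 5 ≤ p) (P : ℕ) (hP : 0 < P) (δ : ℝ) (hδ : 0 < δ) : ∃ N₀ : ℝ, ∀ N Y : ℝ, N₀ ≤ N →
    N ^ (1 / (p : ℝ) + δ) ≤ Y → Y ≤ N ^ (2 / (p : ℝ) - δ) → 1 ≤ N ∧ 1 ≤ Y ∧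
    ∀ r : ℕ, 1 ≤ r → r ≤ P → N ^ (δ / 4) ≤ Y / r ∧ Y / r ≤ N ∧ N ^ (δ / 4) ≤ VV p N r (Y / r) ∧ VV p N r (Y / r) ≤ N := by
  have hp0 : (0 : ℝ) < p := by exact_mod_cast (by omega : 0 < p)
  have hp5 : (5 : ℝ) ≤ p := by exact_mod_cast hp
  have hpi : 0 < 1 / (p : ℝ) := by positivity
  obtain ⟨N₁, h1⟩ := ASC_big (1 / (p : ℝ) + δ - δ / 4) P (by linarith)
  obtain ⟨N₂, h2⟩ := ASC_big ((p : ℝ) * δ - δ / 2) ((P : ℝ) ^ (p - 1)) (by nlinarith)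
  refine ⟨max (max N₁ N₂) 4, fun N Y hN hY1 hY2 => ?_⟩
  have hN4 : 4 ≤ N := le_trans (le_max_right _ _) hN
  have hNa := h1 N (le_trans (le_trans (le_max_left _ _) (le_max_left _ _)) hN)
  have hNb := h2 N (le_trans (le_trans (le_max_right _ _) (le_max_left _ _)) hN)
  have hN1 : 1 ≤ N := by linarith
  have hN0 : 0 < N := by linarith
  have hYge1 : 1 ≤ Y := le_trans (Real.one_le_rpow hN1 (by positivity)) hY1
  have hY0 : 0 < Y := by linarith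
  have hYN : Y ≤ N := by
    refine hY2.trans ?_
    have h3 : (2 : ℝ) / p - δ ≤ 1 := by
      have : (2 : ℝ) / p ≤ 1 := by
        rw [div_le_one hp0]
        linarith
      linarith
    calc N ^ (2 / (p : ℝ) - δ) ≤ N ^ (1 : ℝ) := Real.rpow_le_rpow_of_exponent_le hN1 h3
      _ = N := Real.rpow_one N
  refine ⟨hN1, hYge1, fun r hr1 hrP => ?_⟩
  have hrR : (1 : ℝ) ≤ r := by exact_mod_cast hr1
  have hr0 : (0 : ℝ) < r := by linarith
  have hrPR : (r : ℝ) ≤ P := by exact_mod_cast hrP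
  have hPR : (0 : ℝ) < P := by exact_mod_cast hP
  have hYr : Y / r ≤ Y := div_le_self hY0.le hrR
  have hYr0 : 0 < Y / r := div_pos hY0 hr0
  have hYp1 : N ^ ((1 : ℝ) + p * δ) ≤ Y ^ p := by
    have e : N ^ ((1 : ℝ) + p * δ) = (N ^ (1 / (p : ℝ) + δ)) ^ p := by
      rw [← Real.rpow_natCast, ← Real.rpow_mul hN0.le]
      congr 1
      field_simp
    rw [e]
    exact pow_le_pow_left₀ (Real.rpow_nonneg hN0.le _) hY1 p
  have hYp2 : Y ^ p ≤ N ^ (2 : ℝ) := by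
    have e : (N ^ (2 / (p : ℝ) - δ)) ^ p = N ^ ((2 : ℝ) - p * δ) := by
      rw [← Real.rpow_natCast, ← Real.rpow_mul hN0.le]
      congr 1
      field_simp
    calc Y ^ p ≤ (N ^ (2 / (p : ℝ) - δ)) ^ p := pow_le_pow_left₀ hY0.le hY2 p
      _ = N ^ ((2 : ℝ) - p * δ) := e
      _ ≤ N ^ (2 : ℝ) := Real.rpow_le_rpow_of_exponent_le hN1 (by nlinarith)
  refine ⟨?_, hYr.trans hYN, ?_, ?_⟩
  · rw [le_div_iff₀ hr0]
    calc N ^ (δ / 4) * r ≤ N ^ (δ / 4) * N ^ (1 / (p : ℝ) + δ - δ / 4) :=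
          mul_le_mul_of_nonneg_left (hrPR.trans hNa) (Real.rpow_nonneg hN0.le _)
      _ = N ^ (1 / (p : ℝ) + δ) := by
          rw [← Real.rpow_add hN0]
          congr 1
          ring
      _ ≤ Y := hY1
  · unfold VV
    refine Real.le_sqrt_of_sq_le ?_
    rw [le_div_iff₀ hN0]
    have e1 : (N ^ (δ / 4)) ^ 2 = N ^ (δ / 2) := by
      rw [← Real.rpow_natCast, ← Real.rpow_mul hN0.le]
      congr 1
      push_cast
      ring
    have e2 : 4 * (r : ℝ) * (Y / r) ^ p = 4 * (Y ^ p / (r : ℝ) ^ (p - 1)) := by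
      obtain ⟨k, rfl⟩ : ∃ k, p = k + 1 := ⟨p - 1, by omega⟩
      rw [div_pow, Nat.add_sub_cancel, pow_succ (r : ℝ) k]
      field_simp
    rw [e1, e2]
    have h5 : (r : ℝ) ^ (p - 1) ≤ (P : ℝ) ^ (p - 1) := pow_le_pow_left₀ hr0.le hrPR _
    have h6 : N ^ (δ / 2) * N * (r : ℝ) ^ (p - 1) ≤ Y ^ p := by
      calc N ^ (δ / 2) * N * (r : ℝ) ^ (p - 1) ≤ N ^ (δ / 2) * N * N ^ ((p : ℝ) * δ - δ / 2) :=
            mul_le_mul_of_nonneg_left (h5.trans hNb) (by positivity)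
        _ = N ^ ((1 : ℝ) + p * δ) := by
            nth_rewrite 2 [← Real.rpow_one N]
            rw [← Real.rpow_add hN0, ← Real.rpow_add hN0]
            congr 1
            ring
        _ ≤ Y ^ p := hYp1
    have h7 : N ^ (δ / 2) * N ≤ Y ^ p / (r : ℝ) ^ (p - 1) := by
      rw [le_div_iff₀ (by positivity)]
      exact h6
    have h8 : 0 ≤ Y ^ p / (r : ℝ) ^ (p - 1) := by positivity
    linarith
  · unfold VV
    rw [Real.sqrt_le_left hN0.le, div_le_iff₀ hN0]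
    have e2 : 4 * (r : ℝ) * (Y / r) ^ p = 4 * (Y ^ p / (r : ℝ) ^ (p - 1)) := by
      obtain ⟨k, rfl⟩ : ∃ k, p = k + 1 := ⟨p - 1, by omega⟩
      rw [div_pow, Nat.add_sub_cancel, pow_succ (r : ℝ) k]
      field_simp
    rw [e2]
    have h5 : Y ^ p / (r : ℝ) ^ (p - 1) ≤ Y ^ p := div_le_self (by positivity) (one_le_pow₀ hrR)
    have h6 : Y ^ p ≤ N ^ 2 := by
      have : N ^ (2 : ℝ) = N ^ 2 := by
        rw [← Real.rpow_natCast]
        norm_num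
      rw [← this]
      exact hYp2
    calc 4 * (Y ^ p / (r : ℝ) ^ (p - 1)) ≤ 4 * N ^ 2 := mul_le_mul_of_nonneg_left (h5.trans h6) (by norm_num)
      _ ≤ N * N ^ 2 := mul_le_mul_of_nonneg_right hN4 (sq_nonneg N)
      _ = N ^ 2 * N := mul_comm _ _

theorem ASC (hKAP : KAP_stmt) (hMA : MA_stmt) (hMG : MG_stmt) (hMBX : MBX_stmt) (hERR : ERR_stmt) : ASC_stmt := by
  intro p _hpp hp5 hLOC hRS δ hδ
  obtain ⟨C₀, hC₀, hRS⟩ := hRS
  refine ⟨4 * C₀, by linarith, fun w hw ε hε => ?_⟩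
  obtain ⟨g, g1, g2, g3, g4⟩ := hLOC w hw
  have hG : IsG p w g := ⟨g1, g2, g3, g4⟩
  have hwR : (0 : ℝ) < w := by exact_mod_cast (by omega : 0 < w)
  have hPP := ASC_PP w
  obtain ⟨K, hK2, _hKe, hRS⟩ := hRS (ε / (8 * C₀)) (by positivity)
  set ρ : ℝ := ε / (8 * C₀ * ((PP w).divisors.card + 1)) with hρdef
  have hρ : 0 < ρ := by positivity
  obtain ⟨N₁, hN₁⟩ := hMBX w hw g g1 g2 K (by omega) (δ / 4) ρ (by linarith) hρ
  obtain ⟨N₂, hN₂⟩ := hERR p w g hp5 hw hG δ (ε / 4) hδ (by linarith)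
  obtain ⟨N₃, hN₃⟩ := ASC_range p hp5 (PP w) hPP δ hδ
  refine ⟨max N₁ (max N₂ N₃), fun N Y hN hY1 hY2 => ?_⟩
  have hNa : N₁ ≤ N := le_trans (le_max_left _ _) hN
  have hNb : N₂ ≤ N := le_trans (le_trans (le_max_left _ _) (le_max_right _ _)) hN
  have hNc : N₃ ≤ N := le_trans (le_trans (le_max_right _ _) (le_max_right _ _)) hN
  obtain ⟨h1N, h1Y, hrg⟩ := hN₃ N Y hNc hY1 hY2
  have hN0 : 0 < N := by linarith
  have hY0 : 0 < Y := by linarith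
  have hYN : 0 ≤ Y * √N := by positivity
  have hma := hMA p w N Y hw h1N h1Y
  have herr := hN₂ N Y hNb h1Y hY2
  have hr : ∀ r ∈ (PP w).divisors, |ASC_S p w r N Y - Cst * (1 / (r : ℝ) * gam w g r) * (Y * √N)| ≤
      2 * (C₀ * (2 / w * gam w g r + ρ + ε / (8 * C₀) * gam w g r)) * (1 / (r : ℝ)) * (Y * √N) := by
    intro r hr
    have hrd : r ∣ PP w := Nat.dvd_of_mem_divisors hr
    have hr1 : 1 ≤ r := Nat.pos_of_mem_divisors hr
    have hrP : r ≤ PP w := Nat.le_of_dvd hPP hrd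
    have hrR : (0 : ℝ) < r := by exact_mod_cast hr1
    obtain ⟨a1, a2, a3, a4⟩ := hrg r hr1 hrP
    have hV : 0 < VV p N r (Y / r) := lt_of_lt_of_le (Real.rpow_pos_of_pos hN0 _) a3
    have hZ : 0 < Y / r := div_pos hY0 hrR
    refine ASC_r hMG p w g hG r hrd hr1 N Y _ hN0 hY0 ?_ hV
    refine hRS (fun z y => cw w g r z y) (fun z y => ?_) (Y / r) (VV p N r (Y / r)) (gam w g r) (2 / w) ρ hZ hV
      (ASC_gam w g g1 r) (by positivity) hρ.le (fun i hi j hj => ?_)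
    · show 0 ≤ cw w g r z y
      unfold cw
      split_ifs
      · refine mul_nonneg (g1 _ _ _) ?_
        exact_mod_cast ASC_kap hKAP w y _
      · exact le_rfl
    · have hi' : i ∈ range K := Finset.mem_range.2 (Finset.mem_Ico.1 hi).2
      exact hN₁ N (Y / r) (VV p N r (Y / r)) hNa a1 a2 a3 a4 r hr i hi' j hj
  have hmain : |∑ r ∈ (PP w).divisors, ASC_S p w r N Y -
      Cst * (∏ q ∈ pr w, (1 - 1 / (q : ℝ) ^ 2) ^ 2) * (Y * √N)| ≤ (4 * C₀ / w + ε / 2) * (Y * √N) := by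
    have e1 : Cst * (∏ q ∈ pr w, (1 - 1 / (q : ℝ) ^ 2) ^ 2) * (Y * √N) =
        ∑ r ∈ (PP w).divisors, Cst * (1 / (r : ℝ) * gam w g r) * (Y * √N) := by
      rw [← hG.mean, ← Finset.sum_mul, ← Finset.mul_sum]
    rw [e1, ← Finset.sum_sub_distrib]
    refine (Finset.abs_sum_le_sum_abs _ _).trans ((Finset.sum_le_sum hr).trans ?_)
    have e2 : ∀ r ∈ (PP w).divisors, 2 * (C₀ * (2 / w * gam w g r + ρ + ε / (8 * C₀) * gam w g r)) * (1 / (r : ℝ)) * (Y * √N) =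
        (2 * C₀ * (2 / w + ε / (8 * C₀)) * (Y * √N)) * (1 / (r : ℝ) * gam w g r) + (2 * C₀ * ρ * (Y * √N)) * (1 / (r : ℝ)) := by
      intro r _
      ring
    rw [Finset.sum_congr rfl e2, Finset.sum_add_distrib, ← Finset.mul_sum, ← Finset.mul_sum, hG.mean]
    have hpr := ASC_prod w
    have hinv : ∑ r ∈ (PP w).divisors, 1 / (r : ℝ) ≤ (PP w).divisors.card := by
      rw [← nsmul_one, ← Finset.sum_const]
      refine Finset.sum_le_sum fun r hr => ?_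
      have hr1 : 1 ≤ r := Nat.pos_of_mem_divisors hr
      have hrR : (1 : ℝ) ≤ r := by exact_mod_cast hr1
      rw [div_le_one (by linarith)]
      exact hrR
    have hA : 0 ≤ 2 * C₀ * (2 / w + ε / (8 * C₀)) * (Y * √N) := by positivity
    have hB : 0 ≤ 2 * C₀ * ρ * (Y * √N) := by positivity
    have hρτ : 2 * C₀ * ρ * (PP w).divisors.card ≤ ε / 4 := by
      have h1 : ρ * ((PP w).divisors.card + 1) = ε / (8 * C₀) := by
        rw [hρdef]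
        field_simp
      have h2 : 2 * C₀ * (ρ * ((PP w).divisors.card + 1)) = ε / 4 := by
        rw [h1]
        field_simp
        ring
      have h3 : 0 ≤ 2 * C₀ * ρ := by positivity
      nlinarith
    calc 2 * C₀ * (2 / w + ε / (8 * C₀)) * (Y * √N) * ∏ q ∈ pr w, (1 - 1 / (q : ℝ) ^ 2) ^ 2 +
          2 * C₀ * ρ * (Y * √N) * ∑ r ∈ (PP w).divisors, 1 / (r : ℝ)
        ≤ 2 * C₀ * (2 / w + ε / (8 * C₀)) * (Y * √N) * 1 + 2 * C₀ * ρ * (Y * √N) * (PP w).divisors.card :=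
          add_le_add (mul_le_mul_of_nonneg_left hpr hA) (mul_le_mul_of_nonneg_left hinv hB)
      _ = (4 * C₀ / w + ε / 4 + 2 * C₀ * ρ * (PP w).divisors.card) * (Y * √N) := by
          field_simp
          ring
      _ ≤ (4 * C₀ / w + ε / 4 + ε / 4) * (Y * √N) := by
          refine mul_le_mul_of_nonneg_right ?_ hYN
          linarith
      _ = (4 * C₀ / w + ε / 2) * (Y * √N) := by ring
  have hma' : |({t : Q4 | Bas p N Y t ∧ t.1 ∣ PP w ∧ Loc w p t}.ncard : ℝ) -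
      ∑ r ∈ (PP w).divisors, ASC_S p w r N Y| ≤ ε / 4 * (Y * √N) := hma.trans herr
  calc |({t : Q4 | Bas p N Y t ∧ t.1 ∣ PP w ∧ Loc w p t}.ncard : ℝ) -
        Cst * (∏ q ∈ pr w, (1 - 1 / (q : ℝ) ^ 2) ^ 2) * (Y * √N)|
      ≤ |({t : Q4 | Bas p N Y t ∧ t.1 ∣ PP w ∧ Loc w p t}.ncard : ℝ) - ∑ r ∈ (PP w).divisors, ASC_S p w r N Y| +
        |∑ r ∈ (PP w).divisors, ASC_S p w r N Y -
          Cst * (∏ q ∈ pr w, (1 - 1 / (q : ℝ) ^ 2) ^ 2) * (Y * √N)| := abs_sub_le _ _ _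
    _ ≤ ε / 4 * (Y * √N) + (4 * C₀ / w + ε / 2) * (Y * √N) := add_le_add hma' hmain
    _ ≤ (4 * C₀ / w + ε) * (Y * √N) := by nlinarith

end Pool.Agent.AP
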