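import Pool.Agent.helper95.AP.SpecL

set_option autoImplicit false

namespace Pool.Agent.APL

open Finset NumberField Pool.Agent.helper3.FT Pool.Agent.helper47.RA Pool.Agent.T5 Pool.Agent.AP

theorem LRS_go {q : ℕ} (r : ℕ) {a a' b b' : ℕ} (ha : a ≡ a' [MOD q]) (hb : b ≡ b' [MOD q]) :
    go q r a b = go q r a' b' := by
  have h1 : q ∣ b ↔ q ∣ b' := hb.dvd_iff dvd_rfl
  have h2 : q ∣ a ↔ q ∣ a' := ha.dvd_iff dvd_rfl
  have hra : r * a ≡ r * a' [MOD q] := ha.mul_left r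
  have h3 : q ∣ r * a ↔ q ∣ r * a' := hra.dvd_iff dvd_rfl
  have h4 : jacobiSym ((r * a : ℕ) : ℤ) q = jacobiSym ((r * a' : ℕ) : ℤ) q :=
    jacobiSym.mod_left' (by exact_mod_cast hra)
  unfold go
  simp only [h1, h2, h3, h4]

theorem LRS_g2 (r : ℕ) {a a' b b' : ℕ} (ha : a ≡ a' [MOD 8]) (hb : b ≡ b' [MOD 8]) :
    g2 r a b = g2 r a' b' := by
  have h1 : 2 ∣ b ↔ 2 ∣ b' := hb.dvd_iff (by norm_num)
  have h2 : 2 ∣ a ↔ 2 ∣ a' := ha.dvd_iff (by norm_num)
  have hra : r * a ≡ r * a' [MOD 8] := ha.mul_left r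
  have h3 : 2 ∣ r * a ↔ 2 ∣ r * a' := hra.dvd_iff (by norm_num)
  have h4 : r * a % 8 = r * a' % 8 := hra
  have h5 : r * a % 4 = r * a' % 4 := hra.of_dvd (by norm_num)
  have h6 : b % 8 = b' % 8 := hb
  have h7 : b % 4 = b' % 4 := hb.of_dvd (by norm_num)
  unfold g2
  simp only [h1, h2, h3, h4, h5, h6, h7]

theorem LRS_per {q : ℕ} (r : ℕ) {a a' b b' : ℕ} (ha : a ≡ a' [MOD q ^ aq q]) (hb : b ≡ b' [MOD q ^ aq q]) :
    gq q r a b = gq q r a' b' := by
  unfold gq aq at *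
  split_ifs with h
  · subst h
    rw [if_pos rfl] at ha hb
    exact LRS_g2 r (ha.of_dvd (by norm_num)) (hb.of_dvd (by norm_num))
  · rw [if_neg h] at ha hb
    exact LRS_go r (ha.of_dvd (dvd_pow_self q two_ne_zero)) (hb.of_dvd (dvd_pow_self q two_ne_zero))

theorem LRS_jac (a : ℤ) (q : ℕ) : (-1 : ℝ) ≤ (jacobiSym a q : ℝ) ∧ (jacobiSym a q : ℝ) ≤ 1 := by
  rcases jacobiSym.trichotomy a q with h | h | h <;> rw [h] <;> norm_num

theorem LRS (hLMD : LMD_stmt) : LRS_stmt := by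
  intro q hq
  refine ⟨?_, ?_, ?_, ?_⟩
  · intro r a b
    unfold gq
    split_ifs with h
    · unfold g2
      split_ifs <;> norm_num
    · have hq2 : (2 : ℝ) ≤ q := by exact_mod_cast hq.two_le
      have h0 : (0 : ℝ) < (q : ℝ) ^ 2 := by positivity
      obtain ⟨j1, j2⟩ := LRS_jac ((r * a : ℕ) : ℤ) q
      unfold go
      split_ifs
      · exact le_rfl
      · exact div_nonneg (mul_nonneg (by linarith) (by nlinarith)) h0.le
      · exact le_rfl
      · positivity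
      · exact div_nonneg (by nlinarith) h0.le
      · exact div_nonneg (by nlinarith) h0.le
  · intro r a b h1 h2
    unfold gq
    split_ifs with h
    · subst h
      unfold g2
      rw [if_pos h1, if_pos h2]
    · unfold go
      rw [if_pos h1, if_pos h2]
  · intro r a b
    exact LRS_per r (Nat.mod_modEq a _).symm (Nat.mod_modEq b _).symm
  · intro w r a b hw hqw
    have h1 : q ^ aq q ∣ LL w := by
      rw [(hLMD.1 w 1 hw le_rfl).1]
      exact Finset.dvd_prod_of_mem (fun q => q ^ aq q) hqw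
    exact LRS_per r ((Nat.mod_modEq a _).symm.of_dvd h1) ((Nat.mod_modEq b _).symm.of_dvd h1)

end Pool.Agent.APL
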